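import Mathlib
import Pool.Agent.Helper456.HD.Final

set_option autoImplicit false

namespace Pool.Agent.Results.MP_2c0b9b_co.CentralLargeSets

open Finset

/-- A large set `LS[3](t,k,v)`: a colouring of the `k`-subsets of a `v`-set with three colours
such that every `t`-subset lies in exactly `C(v-t,k-t)/3` of the `k`-subsets of each colour. -/
def LargeSetThree (t k v : ℕ) : Prop :=
  ∃ f : Finset (Fin v) → Fin 3, ∀ j : Fin 3, ∀ T : Finset (Fin v), T.card = t →
    3 * ((Finset.powersetCard k (Finset.univ : Finset (Fin v))).filter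
      (fun B => f B = j ∧ T ⊆ B)).card = (v - t).choose (k - t)

open Pool.Agent.Helper456.HC in
lemma divisible_of (t k v : ℕ) (htk : t ≤ k) (hkv : k ≤ v) (h : LargeSetThree t k v) :
    ∀ i : ℕ, i ≤ t → 3 ∣ (v - i).choose (k - i) := by
  obtain ⟨f, hf⟩ := h
  intro i hi
  set P := Finset.powersetCard k (Finset.univ : Finset (Fin v)) with hP
  set g : Finset (Fin v) → ℤ := fun S => (if f S = 0 then 3 else 0) - 1 with hg
  have hsum : ∀ T : Finset (Fin v), ∑ S ∈ P.filter (fun S => T ⊆ S), g S
      = 3 * ((P.filter (fun B => f B = 0 ∧ T ⊆ B)).card : ℤ)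
        - (P.filter (fun S => T ⊆ S)).card := by
    intro T
    rw [hg, Finset.sum_sub_distrib, ← Finset.sum_filter, Finset.sum_const, Finset.sum_const,
      Finset.filter_filter]
    simp only [nsmul_eq_mul, mul_one]
    rw [mul_comm]
    congr 4
    refine Finset.filter_congr fun S _ => ?_
    tauto
  have hnull : ∀ T ∈ (Finset.univ : Finset (Fin v)).powersetCard t,
      ∑ S ∈ P.filter (fun S => T ⊆ S), g S = 0 := by
    intro T hT
    rw [Finset.mem_powersetCard] at hT
    rw [hsum T]
    have h1 := hf 0 T hT.2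
    have h2 : (P.filter (fun S => T ⊆ S)).card = (v - t).choose (k - t) := by
      rw [hP, card_sup _ _ _ hT.1 (by omega), Finset.card_univ, Fintype.card_fin, hT.2]
    rw [h2, ← h1]; push_cast; ring
  obtain ⟨I, -, hI⟩ := Finset.exists_subset_card_eq (s := (Finset.univ : Finset (Fin v)))
    (n := i) (by rw [Finset.card_univ, Fintype.card_fin]; omega)
  have h1 := null_of_null t k htk (Finset.univ : Finset (Fin v)) g hnull I (by omega)
  rw [← hP, hsum I] at h1
  have h2 : (P.filter (fun S => I ⊆ S)).card = (v - i).choose (k - i) := by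
    rw [hP, card_sup _ _ _ (Finset.subset_univ I) (by omega), Finset.card_univ,
      Fintype.card_fin, hI]
  rw [h2] at h1
  refine ⟨(P.filter (fun B => f B = 0 ∧ I ⊆ B)).card, ?_⟩
  omega

/-- For every `t` there is `v0` such that for all `v ≥ v0` and all `k` with
`4 t + 1 ≤ k ≤ v - 4 t - 1`, an `LS[3](t,k,v)` exists if and only if `3` divides
`C(v-i,k-i)` for all `i ≤ t`. -/
theorem result : ∀ t : ℕ, ∃ v0 : ℕ, ∀ v : ℕ, v0 ≤ v → ∀ k : ℕ,
    4 * t + 1 ≤ k → k + (4 * t + 1) ≤ v →
    (LargeSetThree t k v ↔ ∀ i : ℕ, i ≤ t → 3 ∣ (v - i).choose (k - i)) := by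
  intro t
  obtain ⟨v0, hv0⟩ := Pool.Agent.Helper456.HD.asymN 3 t (by norm_num)
  refine ⟨v0, fun v hv k hk hkv => ?_⟩
  exact ⟨divisible_of t k v (by omega) (by omega), fun h => hv0 v hv k hk (by omega) h⟩

end Pool.Agent.Results.MP_2c0b9b_co.CentralLargeSets
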